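import Pool.Agent.R249.Bi.Dens

/-!
# Biharmonic Poisson transforms of order `R` come from bounded densities

If the biharmonic Poisson transform `f` of an analytic functional `ν` on the unit circle satisfies
`|f(z)| ≤ C (1 + R)`, `R` the hyperbolic distance of `z` to the origin, then `ν` is a measure with
bounded density.
-/

set_option autoImplicit false

open MeasureTheory Set Filter Topology
open scoped ENNReal InnerProductSpace

namespace Pool.Agent.Results.MP_a0f451_an.BoundedDensity

/-- The Poisson kernel `P(z, ξ) = (1 - |z|²) / |ξ - z|²`. -/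
noncomputable def P (z ξ : ℂ) : ℝ := (1 - ‖z‖ ^ 2) / ‖ξ - z‖ ^ 2

/-- The biharmonic Poisson kernel `P₁ = P log P`. -/
noncomputable def P1 (z ξ : ℂ) : ℝ := P z ξ * Real.log (P z ξ)

/-- The `n`-th Fourier coefficient `∫ g(ξ) ξ^{-n} dξ` of `g` on the unit circle
(`dξ` normalised arc length). -/
noncomputable def coeff (g : ℂ → ℂ) (n : ℤ) : ℂ :=
  Real.circleAverage (fun ξ => g ξ * ξ ^ (-n)) 0 1

/-- An analytic functional on the unit circle, given by its coefficients `ν n = ν(e^{-inφ})`, which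
satisfy `limsup |ν n|^{1/|n|} ≤ 1`: for every `s > 1` there is `C` with `|ν n| ≤ C s^{|n|}`. -/
structure AnalyticFunctional where
  /-- the coefficients `ν(e^{-inφ})` -/
  coef : ℤ → ℂ
  growth : ∀ s : ℝ, 1 < s → ∃ C : ℝ, ∀ n : ℤ, ‖coef n‖ ≤ C * s ^ n.natAbs

/-- The value `ν(g) = ∑ ĝ(n) ν(e^{inφ})` of the analytic functional `ν` on (the restriction to the
unit circle of) `g`. -/
noncomputable def AnalyticFunctional.apply (ν : AnalyticFunctional) (g : ℂ → ℂ) : ℂ :=
  ∑' n : ℤ, coeff g n * ν.coef (-n)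

/-- The biharmonic Poisson transform `f(z) = ν(P₁(z, ·))`. -/
noncomputable def transform (ν : AnalyticFunctional) (z : ℂ) : ℂ := ν.apply fun ξ => (P1 z ξ : ℂ)

/-- The hyperbolic distance `R` of `z` to the origin. -/
noncomputable def hypDist (z : ℂ) : ℝ := Real.log ((1 + ‖z‖) / (1 - ‖z‖))

/-- `g` is real-analytic on the unit circle. -/
def IsRealAnalyticOnCircle (g : ℂ → ℂ) : Prop :=
  AnalyticOnNhd ℝ (fun θ : ℝ => g (Complex.exp (θ * Complex.I))) univ

/-- `ν` is a measure with bounded density: there is a bounded measurable `φ` with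
`ν(g) = ∫ g φ dξ` for all real-analytic `g` (the series defining `ν(g)` being summable). -/
def HasBoundedDensity (ν : AnalyticFunctional) : Prop :=
  ∃ φ : ℂ → ℂ, Measurable φ ∧ (∃ C : ℝ, ∀ ξ, ‖φ ξ‖ ≤ C) ∧
    ∀ g : ℂ → ℂ, IsRealAnalyticOnCircle g →
      (Summable fun n : ℤ => coeff g n * ν.coef (-n)) ∧
        ν.apply g = Real.circleAverage (fun ξ => g ξ * φ ξ) 0 1

section proof

open Pool.Agent.R249.Bi AddCircle

lemma circleMap_eq (θ : ℝ) : circleMap 0 1 θ = Complex.exp (θ * Complex.I) := by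
  simp [circleMap]

lemma coe_arg (θ : ℝ) : ((Complex.arg (circleMap 0 1 θ) : ℝ) : Tor) = (θ : Tor) := by
  have h := Complex.arg_exp_mul_I θ
  rw [circleMap_eq, h, toIocMod]
  rw [AddCircle.coe_sub, AddCircle.coe_zsmul, AddCircle.coe_period]
  simp

/-- the function on the torus -/
noncomputable def GG (g : ℂ → ℂ)
    (hg : Continuous fun θ : ℝ => g (Complex.exp (θ * Complex.I))) : C(Tor, ℂ) where
  toFun x := g (fourier 1 x)
  continuous_toFun := by
    have hq : Topology.IsQuotientMap ((↑) : ℝ → Tor) := QuotientAddGroup.isQuotientMap_mk _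
    rw [hq.continuous_iff]
    refine hg.congr fun θ => ?_
    simp only [Function.comp_apply]
    rw [fourier_eq, zpow_one, circleMap_eq]

lemma circleMap_eq_fourier (θ : ℝ) : circleMap 0 1 θ = (fourier 1 (θ : Tor) : ℂ) := by
  rw [fourier_eq, zpow_one]

/-- averages over the circle as integrals over the torus -/
lemma avg_eq (F : ℂ → ℂ) (f : Tor → ℂ) (h : ∀ θ : ℝ, F (circleMap 0 1 θ) = f (θ : Tor)) :
    Real.circleAverage F 0 1 = ∫ x : Tor, f x ∂haarAddCircle := by
  rw [integral_haarAddCircle, ← AddCircle.intervalIntegral_preimage (2 * Real.pi) 0 f, zero_add,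
    Real.circleAverage_def]
  simp_rw [h]

lemma coeff_eq (g : ℂ → ℂ) (hg : Continuous fun θ : ℝ => g (Complex.exp (θ * Complex.I)))
    (n : ℤ) : coeff g n = fourierCoeff (GG g hg) n := by
  unfold coeff fourierCoeff
  refine avg_eq _ _ fun θ => ?_
  rw [fourier_eq, smul_eq_mul, mul_comm]
  congr 1
  change g (circleMap 0 1 θ) = g (fourier 1 (θ : Tor))
  rw [circleMap_eq_fourier]

/-- If the biharmonic Poisson transform `f` of the analytic functional `ν` satisfies
`|f(z)| ≤ C (1 + R)` in the unit disc, then `ν` is a measure with bounded density. -/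
theorem result (ν : AnalyticFunctional)
    (h : ∃ C : ℝ, ∀ z : ℂ, ‖z‖ < 1 → ‖transform ν z‖ ≤ C * (1 + hypDist z)) :
    HasBoundedDensity ν := by
  obtain ⟨C, hC⟩ := h
  have hb : ∀ z : ℂ, ‖z‖ < 1 → ‖hT ν.coef z‖ ≤ C * (5 + Real.log 64) :=
    fun z hz => hT_bounded ν.growth hC hz
  have hK : 0 ≤ C * (5 + Real.log 64) := (norm_nonneg _).trans (hb 0 (by simp))
  obtain ⟨φ, hφ, hφb⟩ := exists_density ν.growth hK hb
  set K := C * (5 + Real.log 64) with hKdef
  classical
  set ψ : Tor → ℂ := fun x => if ‖φ x‖ ≤ K then φ x else 0 with hψ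
  have hφm : Measurable (φ : Tor → ℂ) := (Lp.stronglyMeasurable φ).measurable
  have hψm : Measurable ψ :=
    Measurable.ite (measurableSet_le hφm.norm measurable_const) hφm measurable_const
  have hψφ : ψ =ᵐ[haarAddCircle] φ := by
    filter_upwards [hφb] with x hx
    simp only [hψ]
    rw [if_pos hx]
  have hmk : Measurable ((↑) : ℝ → Tor) := AddCircle.measurable_mk'
  refine ⟨fun ξ => ψ ((Complex.arg ξ : ℝ) : Tor), hψm.comp (hmk.comp Complex.measurable_arg),
    ⟨K, fun ξ => ?_⟩, fun g hg => ?_⟩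
  · simp only [hψ]
    split_ifs with h
    · exact h
    · simpa using hK
  have hgc : Continuous fun θ : ℝ => g (Complex.exp (θ * Complex.I)) := by
    rw [← continuousOn_univ]
    exact hg.continuousOn
  set G := GG g hgc with hG
  have hsum := (fourierBasis (T := 2 * Real.pi)).hasSum_inner_mul_inner
    (ContinuousMap.toLp (E := ℂ) 2 haarAddCircle ℂ (star G)) φ
  have hterm : ∀ n : ℤ, ⟪(ContinuousMap.toLp (E := ℂ) 2 (haarAddCircle (T := 2 * Real.pi)) ℂ
      (star G)), fourierBasis (T := 2 * Real.pi) n⟫_ℂ * ⟪fourierBasis (T := 2 * Real.pi) n, φ⟫_ℂ =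
      coeff g (-n) * ν.coef n := by
    intro n
    rw [← HilbertBasis.repr_apply_apply, hφ]
    congr 1
    rw [coe_fourierBasis, coeff_eq g hgc]
    unfold fourierLp
    rw [ContinuousMap.inner_toLp, fourierCoeff]
    refine integral_congr_ae (Filter.Eventually.of_forall fun x => ?_)
    simp only [ContinuousMap.star_apply, neg_neg, smul_eq_mul]
    congr 1
    exact Complex.conj_conj _
  have hval : ⟪(ContinuousMap.toLp (E := ℂ) 2 (haarAddCircle (T := 2 * Real.pi)) ℂ (star G)),
      φ⟫_ℂ = Real.circleAverage (fun ξ => g ξ * ψ ((Complex.arg ξ : ℝ) : Tor)) 0 1 := by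
    rw [L2.inner_def, avg_eq _ (fun x => G x * ψ x)]
    · refine integral_congr_ae ?_
      filter_upwards [hψφ, ContinuousMap.coeFn_toLp (p := 2) (𝕜 := ℂ)
        (haarAddCircle (T := 2 * Real.pi)) (star G)] with x h1 h2
      rw [h1, h2]
      simp only [RCLike.inner_apply, ContinuousMap.star_apply]
      rw [mul_comm]
      congr 1
      exact Complex.conj_conj _
    · intro θ
      rw [coe_arg]
      congr 1
      change g (circleMap 0 1 θ) = g (fourier 1 (θ : Tor))
      rw [circleMap_eq_fourier]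
  simp_rw [hterm] at hsum
  rw [hval] at hsum
  have hsum2 : HasSum (fun n : ℤ => coeff g n * ν.coef (-n))
      (Real.circleAverage (fun ξ => g ξ * ψ ((Complex.arg ξ : ℝ) : Tor)) 0 1) := by
    rw [← (Equiv.neg ℤ).hasSum_iff]
    have e : (fun n : ℤ => coeff g n * ν.coef (-n)) ∘ (Equiv.neg ℤ) =
        fun n : ℤ => coeff g (-n) * ν.coef n := by
      funext n
      simp
    rw [e]
    exact hsum
  exact ⟨hsum2.summable, hsum2.tsum_eq⟩

end proof

end Pool.Agent.Results.MP_a0f451_an.BoundedDensity
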